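import Mathlib
import Pool.Agent.W25.UB.Stm4
import Pool.Agent.W25.UB.Stm6
import Pool.Agent.W597.UBC2

set_option autoImplicit false

/-! UB-C2p: the dichotomy with a power saving. The sieve part is that of UB-C2 (helper597). -/

namespace Pool.Agent.W356.UB.C2p

open Finset Filter Topology
open Pool.Agent.W25.UN (Fm uB wB)
open Pool.Agent.H410R2 (WW)
open Pool.Agent.W25.UB
open Pool.Agent.W597.UBC2

theorem kst' (hKST : St_KST) (K W : ℕ) (hK : 1 ≤ K) (hW : 1 ≤ W) : ∃ C₁ : ℝ, 0 < C₁ ∧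
    ∀ L, 1 ≤ L → ∀ (u : ℕ) (E : Finset ℕ), E ⊆ Ioc u (u + L) →
    C₁ * (L : ℝ) ^ (1 - 1 / (K : ℝ)) < (E.card : ℝ) →
    ∃ (c : ℕ) (A B : Finset ℕ), A.card = K ∧ B.card = K ∧ (∀ a ∈ A, W ∣ a ∧ a < L * W) ∧
      (∀ b ∈ B, b % W = c ∧ b ≤ u + L + L * W) ∧ ∀ a ∈ A, ∀ b ∈ B, a ≤ b ∧ b - a ∈ E := by
  classical
  obtain ⟨C, hC, h⟩ := hKST K hK
  have hWr : (0 : ℝ) < W := by exact_mod_cast hW
  refine ⟨W * C, by positivity, ?_⟩
  intro L hL u E hE hEc
  obtain ⟨T, hT⟩ : ∃ T : ℝ, T = C * (L : ℝ) ^ (1 - 1 / (K : ℝ)) := ⟨_, rfl⟩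
  have hpig : ∃ c ∈ range W, T < ((E.filter (fun k => k % W = c)).card : ℝ) := by
    apply Finset.exists_lt_card_fiber_of_nsmul_lt_card_of_maps_to
    · intro k _
      exact mem_range.2 (Nat.mod_lt _ hW)
    · rw [card_range, nsmul_eq_mul, hT, ← mul_assoc]
      exact hEc
  obtain ⟨c, hc, hcT⟩ := hpig
  rw [mem_range] at hc
  obtain ⟨X, hX⟩ : ∃ X : Finset ℤ, X = (E.filter (fun k => k % W = c)).image
    (fun k => ((k / W : ℕ) : ℤ)) := ⟨_, rfl⟩
  have hXcard : X.card = (E.filter (fun k => k % W = c)).card := by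
    rw [hX]
    apply card_image_of_injOn
    intro k hk k' hk' hkk
    simp only [coe_filter, Set.mem_ofPred_eq] at hk hk'
    have h1 : k / W = k' / W := by
      simp only [] at hkk
      exact_mod_cast hkk
    have h2 := Nat.div_add_mod k W
    have h3 := Nat.div_add_mod k' W
    rw [← h2, ← h3, h1, hk.2, hk'.2]
  have hXm : ∀ x ∈ X, ∃ k ∈ E, k % W = c ∧ x = ((k / W : ℕ) : ℤ) ∧ (k : ℤ) = c + W * x := by
    intro x hx
    rw [hX, mem_image] at hx
    obtain ⟨k, hk, rfl⟩ := hx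
    rw [mem_filter] at hk
    refine ⟨k, hk.1, hk.2, rfl, ?_⟩
    have h2 := Nat.div_add_mod k W
    rw [hk.2] at h2
    have h3 : ((W * (k / W) + c : ℕ) : ℤ) = (k : ℤ) := by rw [h2]
    push_cast at h3 ⊢
    linarith
  have hWz : (0 : ℤ) < W := by exact_mod_cast hW
  have hu' : ∀ x ∈ X, ((u : ℤ) - c) / W < x ∧ x ≤ ((u : ℤ) - c) / W + L := by
    intro x hx
    obtain ⟨k, hk, _, _, hkx⟩ := hXm x hx
    have hk2 := hE hk
    rw [mem_Ioc] at hk2
    have h1 : (u : ℤ) < k := by exact_mod_cast hk2.1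
    have h2 : (k : ℤ) ≤ u + L := by exact_mod_cast hk2.2
    rw [hkx] at h1 h2
    obtain ⟨q, hq⟩ : ∃ q : ℤ, q = ((u : ℤ) - c) / W := ⟨_, rfl⟩
    have h3 := Int.emod_add_mul_ediv ((u : ℤ) - c) W
    have h4 := Int.emod_nonneg ((u : ℤ) - c) hWz.ne'
    have h5 := Int.emod_lt_of_pos ((u : ℤ) - c) hWz
    rw [← hq] at h3 ⊢
    have hL0 : (0 : ℤ) ≤ L := Int.natCast_nonneg _
    have hW1 : (1 : ℤ) ≤ W := by exact_mod_cast hW
    constructor
    · by_contra hcon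
      push Not at hcon
      have : (W : ℤ) * x ≤ W * q := mul_le_mul_of_nonneg_left hcon hWz.le
      linarith
    · by_contra hcon
      push Not at hcon
      have h6 : q + L + 1 ≤ x := hcon
      have h7 : (W : ℤ) * (q + L + 1) ≤ W * x := mul_le_mul_of_nonneg_left h6 hWz.le
      have h8 : (L : ℤ) ≤ W * L := by nlinarith
      have h9 : (W : ℤ) * (q + L + 1) = W * q + W * L + W := by ring
      linarith
  obtain ⟨S₁, S₂, hS1, hS2, hS3, hS4, hS5⟩ := h L (((u : ℤ) - c) / W) X hL hu' (by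
    rw [hXcard, ← hT]; exact hcT)
  have hne : S₁.Nonempty := by
    rw [← card_pos, hS1]
    omega
  have hS2n : ∀ s' ∈ S₂, 0 ≤ s' := by
    intro s' hs'
    obtain ⟨s, hs⟩ := hne
    obtain ⟨k, _, _, hk, _⟩ := hXm _ (hS5 s hs s' hs')
    have h1 := (hS3 s hs).1
    have h2 : (0 : ℤ) ≤ ((k / W : ℕ) : ℤ) := Int.natCast_nonneg _
    linarith
  have hkey : ∀ s ∈ S₁, ∀ s' ∈ S₂, W * s.toNat ≤ c + W * s'.toNat ∧
      c + W * s'.toNat - W * s.toNat ∈ E := by
    intro s hs s' hs'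
    obtain ⟨k, hkE, _, _, hk⟩ := hXm _ (hS5 s hs s' hs')
    have h1 : ((s.toNat : ℕ) : ℤ) = s := Int.toNat_of_nonneg (hS3 s hs).1
    have h2 : ((s'.toNat : ℕ) : ℤ) = s' := Int.toNat_of_nonneg (hS2n s' hs')
    have h3 : c + W * s'.toNat = k + W * s.toNat := by
      have : ((c + W * s'.toNat : ℕ) : ℤ) = ((k + W * s.toNat : ℕ) : ℤ) := by
        push_cast
        rw [h1, h2, hk]
        ring
      exact_mod_cast this
    rw [h3]
    refine ⟨Nat.le_add_left _ _, ?_⟩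
    rw [Nat.add_sub_cancel]
    exact hkE
  refine ⟨c, S₁.image (fun s => W * s.toNat), S₂.image (fun s' => c + W * s'.toNat), ?_, ?_, ?_,
    ?_, ?_⟩
  · rw [card_image_of_injOn, hS1]
    intro s hs t ht hst
    have h1 : s.toNat = t.toNat := Nat.eq_of_mul_eq_mul_left hW hst
    have h2 : ((s.toNat : ℕ) : ℤ) = s := Int.toNat_of_nonneg (hS3 s hs).1
    have h3 : ((t.toNat : ℕ) : ℤ) = t := Int.toNat_of_nonneg (hS3 t ht).1
    rw [← h2, ← h3, h1]
  · rw [card_image_of_injOn, hS2]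
    intro s hs t ht hst
    have h1 : s.toNat = t.toNat := Nat.eq_of_mul_eq_mul_left hW (Nat.add_left_cancel hst)
    have h2 : ((s.toNat : ℕ) : ℤ) = s := Int.toNat_of_nonneg (hS2n s hs)
    have h3 : ((t.toNat : ℕ) : ℤ) = t := Int.toNat_of_nonneg (hS2n t ht)
    rw [← h2, ← h3, h1]
  · intro a ha
    rw [mem_image] at ha
    obtain ⟨s, hs, rfl⟩ := ha
    refine ⟨Dvd.intro _ rfl, ?_⟩
    have h1 : s.toNat < L := by
      have := hS3 s hs
      omega
    rw [mul_comm W]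
    exact Nat.mul_lt_mul_of_pos_right h1 hW
  · intro b hb
    rw [mem_image] at hb
    obtain ⟨s', hs', rfl⟩ := hb
    refine ⟨?_, ?_⟩
    · rw [Nat.add_mul_mod_self_left, Nat.mod_eq_of_lt hc]
    · obtain ⟨s, hs⟩ := hne
      have h1 := hkey s hs s' hs'
      have h2 := hE h1.2
      rw [mem_Ioc] at h2
      have h3 : s.toNat < L := by
        have := hS3 s hs
        omega
      have h4 : W * s.toNat ≤ L * W := by
        rw [mul_comm W]
        exact Nat.mul_le_mul_right _ h3.le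
      omega
  · intro a ha b hb
    rw [mem_image] at ha hb
    obtain ⟨s, hs, rfl⟩ := ha
    obtain ⟨s', hs', rfl⟩ := hb
    exact hkey s hs s' hs'

open Classical in
theorem main (hV : ThmV) (hKST : St_KST) : St_C2p := by
  obtain ⟨K, hK2, hV⟩ := hV
  set W : ℕ := (4 * K + 2).factorial with hWdef
  have hW0 : 0 < W := Nat.factorial_pos _
  have hWp : ∀ p : ℕ, p.Prime → p ≤ 4 * K + 2 → p ∣ W := fun p hp hle => (hp.dvd_factorial).2 hle
  obtain ⟨C₁, hC₁, hkst⟩ := kst' hKST K W (by omega) hW0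
  refine ⟨K, C₁, by omega, hC₁, fun L u hL => ?_⟩
  set X : ℕ := u + L + L * W + 1 with hX
  refine ⟨2 * (W + 2 * X), fun η hη => ?_⟩
  have hD : ∀ x : (Fin W × Fin W) × ((Fin K → Fin X) × (Fin K → Fin X)), ∃ D₀ : ℕ,
      (Function.Injective x.2.1 ∧ Function.Injective x.2.2 ∧ ∀ i j, x.2.1 i ≠ x.2.2 j) →
      ∀ D : ℕ, D₀ ≤ D → ∀ η : ℝ, 0 < η → ∀ᶠ N : ℕ in atTop, ∀ v : ℕ,
      CopAt (al K) (hh K x.1.1 x.1.2 (fun j => x.2.1 j) (fun j => x.2.2 j)) D N v →
      (N : ℝ) ^ (1 - η) ≤ (((Icc 1 N).filter (fun n : ℕ => n ≡ v [MOD (WW D)] ∧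
        (N : ℝ) / 16 ≤ n ∧ (n : ℝ) ≤ N / 2 ∧
        2 ≤ (univ.filter (fun g : Fin 4 => ∃ i, cls K i = g ∧
          (Fm (al K) (hh K x.1.1 x.1.2 (fun j => x.2.1 j) (fun j => x.2.2 j)) N i
            n).toNat.Prime)).card)).card : ℝ) := by
    intro x
    by_cases hx : (Function.Injective x.2.1 ∧ Function.Injective x.2.2 ∧ ∀ i j, x.2.1 i ≠ x.2.2 j)
    · obtain ⟨D₀, h⟩ := hV (al K) (hh K x.1.1 x.1.2 (fun j => x.2.1 j) (fun j => x.2.2 j)) (cls K)
        (by intro g; convert cls_card K g) (al_or K)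
        (distinct K _ _ _ _ (fun a b hab => hx.1 (Fin.ext hab)) (fun a b hab => hx.2.1 (Fin.ext hab))
          (fun i j hij => hx.2.2 i j (Fin.ext hij)))
      exact ⟨D₀, fun _ => h⟩
    · exact ⟨0, fun h => absurd h hx⟩
  choose D₀ hD₀ using hD
  set D : ℕ := univ.sup D₀ with hDdef
  have hev : ∀ᶠ N : ℕ in atTop, ∀ x : (Fin W × Fin W) × ((Fin K → Fin X) × (Fin K → Fin X)),
      (Function.Injective x.2.1 ∧ Function.Injective x.2.2 ∧ ∀ i j, x.2.1 i ≠ x.2.2 j) → ∀ v : ℕ,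
      CopAt (al K) (hh K x.1.1 x.1.2 (fun j => x.2.1 j) (fun j => x.2.2 j)) D N v →
      (N : ℝ) ^ (1 - η / 2) ≤ (((Icc 1 N).filter (fun n : ℕ => n ≡ v [MOD (WW D)] ∧
        (N : ℝ) / 16 ≤ n ∧ (n : ℝ) ≤ N / 2 ∧
        2 ≤ (univ.filter (fun g : Fin 4 => ∃ i, cls K i = g ∧
          (Fm (al K) (hh K x.1.1 x.1.2 (fun j => x.2.1 j) (fun j => x.2.2 j)) N i
            n).toNat.Prime)).card)).card : ℝ) := by
    rw [Filter.eventually_all]
    intro x
    by_cases hx : (Function.Injective x.2.1 ∧ Function.Injective x.2.2 ∧ ∀ i j, x.2.1 i ≠ x.2.2 j)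
    · filter_upwards [hD₀ x hx D (le_sup (mem_univ x)) (η / 2) (by linarith)] with N hN _ v hv
      exact hN v hv
    · exact Eventually.of_forall (fun N h => absurd h hx)
  filter_upwards [hev, growth (16 * (K : ℝ) ^ 2) η hη, eventually_ge_atTop (2 * (W + 2 * X))]
    with N hN hgr hNbig
  rw [or_iff_not_imp_right]
  intro hnot
  rw [not_le] at hnot
  set E : Finset ℕ := (Ioc u (u + L)).filter (fun k : ℕ => ¬ ((N : ℝ) ^ (1 - η) ≤
      (((Icc 1 (3 * N)).filter (fun p : ℕ => p.Prime ∧ (p + 2 * k).Prime)).card : ℝ))) with hE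
  have hEc : C₁ * (L : ℝ) ^ (1 - 1 / (K : ℝ)) < (E.card : ℝ) := hnot
  obtain ⟨c, A, B, hAc, hBc, hA, hB, hAB⟩ := hkst L hL u E (filter_subset _ _) hEc
  set fA : Fin K → ℕ := fun j => A.orderEmbOfFin hAc j with hfA
  set fB : Fin K → ℕ := fun j => B.orderEmbOfFin hBc j with hfB
  have hfAm : ∀ j, fA j ∈ A := fun j => A.orderEmbOfFin_mem hAc j
  have hfBm : ∀ j, fB j ∈ B := fun j => B.orderEmbOfFin_mem hBc j
  have hfAX : ∀ j, fA j < X := by
    intro j
    have := (hA _ (hfAm j)).2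
    omega
  have hfBX : ∀ j, fB j < X := by
    intro j
    have := (hB _ (hfBm j)).2
    omega
  obtain ⟨r, hrW, hr⟩ := exists_res W hW0 N
  obtain ⟨r', hrW', hr'⟩ := exists_res W hW0 (N + 2 * c)
  have hEab : ∀ i j, fA i ≤ fB j ∧ fB j - fA i ∈ E := fun i j => hAB _ (hfAm i) _ (hfBm j)
  obtain ⟨v, hv⟩ := copAt_exists (al K) (hh K r r' fA fB) D N (local_sol K W N r r' c hWp fA fB
    (fun j => (hA _ (hfAm j)).1) (by
      intro j
      have h1 := (hB _ (hfBm j)).1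
      have h2 := Nat.div_add_mod (fB j) W
      rw [h1] at h2
      refine ⟨((fB j / W : ℕ) : ℤ), ?_⟩
      have h3 : ((W * (fB j / W) + c : ℕ) : ℤ) = (fB j : ℤ) := by rw [h2]
      push_cast at h3 ⊢
      linarith) hr hr')
  have hmain := hN ((⟨r, hrW⟩, ⟨r', hrW'⟩), (fun j => ⟨fA j, hfAX j⟩, fun j => ⟨fB j, hfBX j⟩))
    ⟨by
      intro a b hab
      have h1 : fA a = fA b := congrArg Fin.val hab
      exact (A.orderEmbOfFin hAc).injective h1, by
      intro a b hab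
      have h1 : fB a = fB b := congrArg Fin.val hab
      exact (B.orderEmbOfFin hBc).injective h1, by
      intro i j hij
      have h1 : fA i = fB j := congrArg Fin.val hij
      have h2 := (hEab i j).2
      rw [hE, mem_filter, mem_Ioc] at h2
      omega⟩ v hv
  obtain ⟨i, i', hlt, hcard⟩ := pigeon K N v D (hh K r r' fA fB) ((N : ℝ) ^ (1 - η / 2))
    ((N : ℝ) ^ (1 - η)) (Real.rpow_nonneg (Nat.cast_nonneg N) _) hmain hgr
  obtain ⟨⟨g, j⟩, rfl⟩ := finProdFinEquiv.surjective i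
  obtain ⟨⟨g', j'⟩, rfl⟩ := finProdFinEquiv.surjective i'
  simp only [cls, Equiv.symm_apply_apply] at hlt
  have hcases : (g = 0 ∧ g' = 1) ∨ (g = 2 ∧ g' = 3) ∨ (g.val < 2 ∧ ¬ g'.val < 2) := by
    revert hlt
    fin_cases g <;> fin_cases g' <;> simp
  have hEnot : ∀ k ∈ E, (((Icc 1 (3 * N)).filter (fun p : ℕ =>
      p.Prime ∧ (p + 2 * k).Prime)).card : ℝ) < (N : ℝ) ^ (1 - η) := by
    intro k hk
    rw [hE, mem_filter] at hk
    exact not_le.1 hk.2
  rcases hcases with ⟨rfl, rfl⟩ | ⟨rfl, rfl⟩ | ⟨hg, hg'⟩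
  · exfalso
    have h1 := hEab j j'
    have h2 := same N 1 (Or.inl rfl) r (fA j) (fB j') h1.1 (by
      have := hfBX j'
      omega)
    have h3 : TT K N (hh K r r' fA fB) (finProdFinEquiv (0, j)) (finProdFinEquiv (1, j')) =
        (Icc 1 N).filter (fun n : ℕ => (n : ℝ) ≤ N / 2 ∧
      ((N : ℤ) + 1 * n + ((r : ℤ) + 2 * (fA j : ℤ))).toNat.Prime ∧
      ((N : ℤ) + 1 * n + ((r : ℤ) + 2 * (fB j' : ℤ))).toNat.Prime) := by
      unfold TT
      simp only [Fm_eval]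
      simp
    rw [h3] at hcard
    have h4 := hEnot _ h1.2
    have h5 : ((((Icc 1 N).filter (fun n : ℕ => (n : ℝ) ≤ N / 2 ∧
      ((N : ℤ) + 1 * n + ((r : ℤ) + 2 * (fA j : ℤ))).toNat.Prime ∧
      ((N : ℤ) + 1 * n + ((r : ℤ) + 2 * (fB j' : ℤ))).toNat.Prime)).card : ℕ) : ℝ) ≤ _ :=
      Nat.cast_le.2 h2
    linarith
  · exfalso
    have h1 := hEab j' j
    have h2 := same N (-1) (Or.inr rfl) r' (fA j') (fB j) h1.1 (by
      have := hfBX j
      omega)
    have h3 : TT K N (hh K r r' fA fB) (finProdFinEquiv (2, j)) (finProdFinEquiv (3, j')) =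
        (Icc 1 N).filter (fun n : ℕ => (n : ℝ) ≤ N / 2 ∧
      ((N : ℤ) + -1 * n + ((r' : ℤ) + 2 * (fA j' : ℤ))).toNat.Prime ∧
      ((N : ℤ) + -1 * n + ((r' : ℤ) + 2 * (fB j : ℤ))).toNat.Prime) := by
      unfold TT
      simp only [Fm_eval]
      apply filter_congr
      intro n _
      simp
      tauto
    rw [h3] at hcard
    have h4 := hEnot _ h1.2
    have h5 : ((((Icc 1 N).filter (fun n : ℕ => (n : ℝ) ≤ N / 2 ∧
      ((N : ℤ) + -1 * n + ((r' : ℤ) + 2 * (fA j' : ℤ))).toNat.Prime ∧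
      ((N : ℤ) + -1 * n + ((r' : ℤ) + 2 * (fB j : ℤ))).toNat.Prime)).card : ℕ) : ℝ) ≤ _ :=
      Nat.cast_le.2 h2
    linarith
  · set h1 : ℤ := hh K r r' fA fB (finProdFinEquiv (g, j)) with hh1
    set h2 : ℤ := hh K r r' fA fB (finProdFinEquiv (g', j')) with hh2
    have hb1 := hh_bound K r r' W X fA fB hrW.le hrW'.le (fun j => (hfAX j).le)
      (fun j => (hfBX j).le) (finProdFinEquiv (g, j))
    have hb2 := hh_bound K r r' W X fA fB hrW.le hrW'.le (fun j => (hfAX j).le)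
      (fun j => (hfBX j).le) (finProdFinEquiv (g', j'))
    rw [← hh1] at hb1
    rw [← hh2] at hb2
    refine ⟨h1 + h2, ?_, ?_⟩
    · rw [abs_of_nonneg (by linarith)]
      push_cast
      linarith
    · have h3 : TT K N (hh K r r' fA fB) (finProdFinEquiv (g, j)) (finProdFinEquiv (g', j')) =
          (Icc 1 N).filter (fun n : ℕ => (n : ℝ) ≤ N / 2 ∧
            ((N : ℤ) + 1 * n + h1).toNat.Prime ∧ ((N : ℤ) + (-1) * n + h2).toNat.Prime) := by
        have e1 : al K (finProdFinEquiv (g, j)) = 1 := by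
          simp only [al, Equiv.symm_apply_apply, if_pos hg]
        have e2 : al K (finProdFinEquiv (g', j')) = -1 := by
          simp only [al, Equiv.symm_apply_apply, if_neg hg']
        unfold TT Fm
        rw [e1, e2]
      rw [h3] at hcard
      refine hcard.trans ?_
      exact Nat.cast_le.2 (mixed N h1 h2 hb1.1 (by omega) hb2.1)

end Pool.Agent.W356.UB.C2p
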